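import Pool.Agent.V11120.PalT.Core

/-!
# Eventually palindromic complete return words force `T(n) = 0` for large `n`
-/

set_option autoImplicit false

namespace Pool.Agent.Results.MP_0fbb7a_co.EventuallyZero

open Pool.Agent.V11120.PalT

/-- Let the language of `u` be closed under reversal and contain infinitely many palindromes,
and let every complete return word of every palindromic factor of length `≥ K` be a
palindrome.  Then `T(n) = 0` for all large `n`. -/
theorem result (A : Type) [Finite A] (u : ℕ → A) (hrev : ClosedRev u)
    (hinf : {w | w ∈ Lang u ∧ Pal w}.Infinite) (K : ℕ)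
    (hK : ∀ w ∈ Lang u, Pal w → K ≤ w.length → ∀ v ∈ Lang u, IsCRW v w → Pal v) :
    ∃ N, ∀ n, N ≤ n → T u n = 0 := by
  obtain ⟨N0, hN0⟩ := uni_of_crw u hrev hinf K hK
  exact ⟨N0, fun n hn => T_zero u hrev N0 hN0 n hn⟩

end Pool.Agent.Results.MP_0fbb7a_co.EventuallyZero
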